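import Pool.Agent.WK6.Stmts

/-!
# LRB of squad WK6: local bound near the real line
-/

set_option autoImplicit false

namespace Pool.Agent.WK6.H73

open MeasureTheory Filter Topology Complex
open Pool.Agent.WK6

noncomputable section

/-- `exp(-2η/ζ)`, extended by `0`. -/
def hh (η : ℝ) (ζ : ℂ) : ℂ := if ζ = 0 then 0 else Complex.exp (-(((2 * η : ℝ) : ℂ) * ζ⁻¹))

theorem hh_zero (η : ℝ) : hh η 0 = 0 := if_pos rfl

theorem norm_hh {η : ℝ} {ζ : ℂ} (h : ζ ≠ 0) : ‖hh η ζ‖ = Real.exp (-(2 * η * (ζ⁻¹).re)) := by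
  rw [hh, if_neg h, Complex.norm_exp, neg_re, re_ofReal_mul]

theorem cone_re {ζ : ℂ} (hc : |ζ.im| ≤ ζ.re) (h : ζ ≠ 0) : 0 < ζ.re := by
  rcases lt_or_eq_of_le ((abs_nonneg _).trans hc) with h1 | h1
  · exact h1
  · exfalso
    apply h
    rw [← h1] at hc
    have h2 : ζ.im = 0 := abs_eq_zero.1 (le_antisymm hc (abs_nonneg _))
    exact Complex.ext (by simpa using h1.symm) (by simpa using h2)

theorem cone_inv {ζ : ℂ} (hc : |ζ.im| ≤ ζ.re) (h : ζ ≠ 0) : 1 / (2 * ζ.re) ≤ (ζ⁻¹).re := by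
  have hp := cone_re hc h
  have hn : Complex.normSq ζ = ζ.re * ζ.re + ζ.im * ζ.im := Complex.normSq_apply ζ
  have h2 : ζ.im * ζ.im ≤ ζ.re * ζ.re := by
    rw [← abs_mul_abs_self ζ.im]
    exact mul_le_mul hc hc (abs_nonneg _) hp.le
  have hpos : 0 < Complex.normSq ζ := by
    rw [hn]
    nlinarith [mul_pos hp hp, mul_self_nonneg ζ.im]
  rw [Complex.inv_re, div_le_div_iff₀ (by positivity) hpos, hn]
  nlinarith

theorem hh_le_one {η : ℝ} (hη : 0 < η) {ζ : ℂ} (hc : |ζ.im| ≤ ζ.re) : ‖hh η ζ‖ ≤ 1 := by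
  by_cases h : ζ = 0
  · rw [h, hh_zero, norm_zero]
    exact zero_le_one
  · rw [norm_hh h, Real.exp_le_one_iff]
    have h1 := cone_inv hc h
    have h2 := cone_re hc h
    have h3 : 0 ≤ 1 / (2 * ζ.re) := by positivity
    have h4 : 0 ≤ 2 * η * (ζ⁻¹).re := mul_nonneg (by positivity) (h3.trans h1)
    linarith

theorem hh_le {η : ℝ} (hη : 0 < η) {ζ : ℂ} (hc : |ζ.im| ≤ ζ.re) (h : ζ ≠ 0) :
    ‖hh η ζ‖ ≤ Real.exp (-(η / ζ.re)) := by
  rw [norm_hh h, Real.exp_le_exp]
  have h1 := cone_inv hc h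
  have h2 := cone_re hc h
  have h3 : η / ζ.re = 2 * η * (1 / (2 * ζ.re)) := by
    field_simp
  rw [h3, neg_le_neg_iff]
  exact mul_le_mul_of_nonneg_left h1 (by positivity)

theorem hh_ge {η : ℝ} (hη : 0 < η) {ζ : ℂ} (h : 1 ≤ ‖ζ‖) : Real.exp (-(2 * η)) ≤ ‖hh η ζ‖ := by
  have h0 : ζ ≠ 0 := by
    intro h1
    rw [h1, norm_zero] at h
    linarith
  rw [norm_hh h0, Real.exp_le_exp, neg_le_neg_iff]
  have h1 : (ζ⁻¹).re ≤ 1 := by
    refine (Complex.re_le_norm _).trans ?_
    rw [norm_inv]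
    exact inv_le_one_of_one_le₀ h
  nlinarith

theorem hh_diff (η : ℝ) {ζ : ℂ} (h : ζ ≠ 0) : DifferentiableAt ℂ (hh η) ζ := by
  have h1 : DifferentiableAt ℂ (fun ζ : ℂ => Complex.exp (-(((2 * η : ℝ) : ℂ) * ζ⁻¹))) ζ :=
    (((differentiableAt_id).inv h).const_mul _).neg.cexp
  refine h1.congr_of_eventuallyEq ?_
  filter_upwards [isOpen_ne.mem_nhds h] with w hw
  rw [hh, if_neg hw]

theorem hh_cont {η : ℝ} (hη : 0 < η) : ContinuousOn (hh η) {ζ : ℂ | |ζ.im| ≤ ζ.re} := by
  intro ζ hζ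
  by_cases h : ζ = 0
  · rw [h]
    unfold ContinuousWithinAt
    rw [hh_zero]
    refine squeeze_zero_norm' (a := fun ζ : ℂ => ‖ζ‖ / η) ?_ ?_
    · filter_upwards [self_mem_nhdsWithin] with w hw
      by_cases h0 : w = 0
      · rw [h0, hh_zero, norm_zero]
        positivity
      · refine (hh_le hη hw h0).trans ?_
        have h2 := cone_re hw h0
        rw [Real.exp_neg]
        have h3 : η / w.re ≤ Real.exp (η / w.re) := by
          have := Real.add_one_le_exp (η / w.re)
          linarith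
        have h4 : (Real.exp (η / w.re))⁻¹ ≤ (η / w.re)⁻¹ := inv_anti₀ (by positivity) h3
        refine h4.trans ?_
        rw [inv_div]
        exact div_le_div_of_nonneg_right (Complex.re_le_norm w) hη.le
    · have h1 : Tendsto (fun ζ : ℂ => ‖ζ‖ / η) (𝓝 0) (𝓝 (‖(0 : ℂ)‖ / η)) :=
        (continuous_norm.div_const η).tendsto 0
      rw [norm_zero, zero_div] at h1
      exact h1.mono_left nhdsWithin_le_nhds
  · exact (hh_diff η h).continuousAt.continuousWithinAt

theorem lrb : LrbStmt := by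
  intro A η hA hη ψ x0 hψ hb
  obtain ⟨v1, hv1⟩ : ∃ v1 : ℂ, v1 = ((x0 - 3 / 2 : ℝ) : ℂ) := ⟨_, rfl⟩
  obtain ⟨v2, hv2⟩ : ∃ v2 : ℂ, v2 = ((x0 + 3 / 2 : ℝ) : ℂ) := ⟨_, rfl⟩
  have r1 : v1.re = x0 - 3 / 2 := by rw [hv1, ofReal_re]
  have r2 : v2.re = x0 + 3 / 2 := by rw [hv2, ofReal_re]
  have i1 : v1.im = 0 := by rw [hv1, ofReal_im]
  have i2 : v2.im = 0 := by rw [hv2, ofReal_im]
  set D : Set ℂ := {w | |w.re - x0| + |w.im| < 3 / 2} with hD
  have hre : Continuous (fun w : ℂ => |w.re - x0| + |w.im|) := by fun_prop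
  have hDcl : ∀ w ∈ closure D, |w.re - x0| + |w.im| ≤ 3 / 2 := fun w hw =>
    closure_lt_subset_le hre continuous_const hw
  have hDfr : ∀ w ∈ frontier D, |w.re - x0| + |w.im| = 3 / 2 := fun w hw =>
    frontier_lt_subset_eq hre continuous_const hw
  have hnm : ∀ w : ℂ, ‖w - (x0 : ℂ)‖ ≤ |w.re - x0| + |w.im| := by
    intro w
    have h := Complex.norm_le_abs_re_add_abs_im (w - (x0 : ℂ))
    simpa only [sub_re, sub_im, ofReal_re, ofReal_im, sub_zero] using h
  have hball : ∀ w ∈ closure D, w ∈ Metric.ball (x0 : ℂ) 2 := by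
    intro w hw
    rw [mem_ball_iff_norm]
    have := (hnm w).trans (hDcl w hw)
    linarith
  have c1 : ∀ w : ℂ, |w.re - x0| + |w.im| ≤ 3 / 2 → |(w - v1).im| ≤ (w - v1).re := by
    intro w hw
    rw [sub_im, sub_re, i1, r1, sub_zero]
    have := neg_abs_le (w.re - x0)
    linarith
  have c2 : ∀ w : ℂ, |w.re - x0| + |w.im| ≤ 3 / 2 → |(v2 - w).im| ≤ (v2 - w).re := by
    intro w hw
    rw [sub_im, sub_re, i2, r2, zero_sub, abs_neg]
    have := le_abs_self (w.re - x0)
    linarith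
  have hbdd : Bornology.IsBounded D := by
    refine (Metric.isBounded_closedBall (x := (x0 : ℂ)) (r := 3 / 2)).subset (fun w hw => ?_)
    rw [mem_closedBall_iff_norm]
    exact (hnm w).trans (le_of_lt hw)
  set g : ℂ → ℂ := fun w => ψ w * hh η (w - v1) * hh η (v2 - w) with hg
  have hopen : IsOpen D := isOpen_lt hre continuous_const
  have hgd : DiffContOnCl ℂ g D := by
    refine ⟨?_, ?_⟩
    · intro w hw
      have hw1 : |w.re - x0| + |w.im| < 3 / 2 := hw
      have n1 : w - v1 ≠ 0 := by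
        intro h
        have h1 : w.re = x0 - 3 / 2 := by
          rw [← r1, ← sub_eq_zero, ← sub_re, h, zero_re]
        have h2 : |w.re - x0| = 3 / 2 := by
          rw [h1]
          norm_num [abs_of_nonneg]
        have := abs_nonneg w.im
        linarith
      have n2 : v2 - w ≠ 0 := by
        intro h
        have h1 : w.re = x0 + 3 / 2 := by
          rw [← r2]
          symm
          rw [← sub_eq_zero, ← sub_re, h, zero_re]
        have h2 : |w.re - x0| = 3 / 2 := by
          rw [h1]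
          norm_num [abs_of_nonneg]
        have := abs_nonneg w.im
        linarith
      refine DifferentiableAt.differentiableWithinAt ?_
      refine ((hψ.differentiableAt (Metric.isOpen_ball.mem_nhds
        (hball w (subset_closure hw)))).mul ?_).mul ?_
      · exact (hh_diff η n1).comp w (differentiableAt_id.sub_const v1)
      · exact (hh_diff η n2).comp w ((differentiableAt_const v2).sub differentiableAt_id)
    · refine ((hψ.continuousOn.mono fun w hw => hball w hw).mul ?_).mul ?_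
      · exact (hh_cont hη).comp (continuousOn_id.sub continuousOn_const)
          (fun w hw => c1 w (hDcl w hw))
      · exact (hh_cont hη).comp (continuousOn_const.sub continuousOn_id)
          (fun w hw => c2 w (hDcl w hw))
  have hfr : ∀ w ∈ frontier D, ‖g w‖ ≤ A := by
    intro w hw
    have hw' := hDfr w hw
    have hgn : ‖g w‖ = ‖ψ w‖ * ‖hh η (w - v1)‖ * ‖hh η (v2 - w)‖ := by
      rw [hg]
      simp only [norm_mul]
    rw [hgn]
    by_cases him : w.im = 0
    · -- a vertex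
      rw [him, abs_zero, add_zero] at hw'
      have hz : hh η (w - v1) = 0 ∨ hh η (v2 - w) = 0 := by
        rcases le_total 0 (w.re - x0) with h | h
        · right
          rw [abs_of_nonneg h] at hw'
          have : v2 - w = 0 := by
            apply Complex.ext
            · rw [sub_re, r2, zero_re]; linarith
            · rw [sub_im, i2, him, zero_im]; simp
          rw [this, hh_zero]
        · left
          rw [abs_of_nonpos h] at hw'
          have : w - v1 = 0 := by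
            apply Complex.ext
            · rw [sub_re, r1, zero_re]; linarith
            · rw [sub_im, i1, him, zero_im]; simp
          rw [this, hh_zero]
      rcases hz with h | h
      · rw [h, norm_zero, mul_zero, zero_mul]
        exact hA
      · rw [h, norm_zero, mul_zero]
        exact hA
    · have h1 := hb w (lt_of_le_of_lt ((hnm w).trans hw'.le) (by norm_num)) him
      have hp : 0 < |w.im| := abs_pos.2 him
      have e1 := c1 w hw'.le
      have e2 := c2 w hw'.le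
      have l1 := hh_le_one hη e1
      have l2 := hh_le_one hη e2
      have hkey : ‖hh η (w - v1)‖ * ‖hh η (v2 - w)‖ ≤ Real.exp (-(η / |w.im|)) := by
        rcases le_total 0 (w.re - x0) with h | h
        · rw [abs_of_nonneg h] at hw'
          have h3 : (v2 - w).re = |w.im| := by
            rw [sub_re, r2]; linarith
          have h4 : v2 - w ≠ 0 := by
            intro h5
            rw [h5, zero_re] at h3
            linarith
          have h5 := hh_le hη e2 h4
          rw [h3] at h5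
          calc ‖hh η (w - v1)‖ * ‖hh η (v2 - w)‖ ≤ 1 * ‖hh η (v2 - w)‖ :=
                mul_le_mul_of_nonneg_right l1 (norm_nonneg _)
            _ ≤ _ := by rw [one_mul]; exact h5
        · rw [abs_of_nonpos h] at hw'
          have h3 : (w - v1).re = |w.im| := by
            rw [sub_re, r1]; linarith
          have h4 : w - v1 ≠ 0 := by
            intro h5
            rw [h5, zero_re] at h3
            linarith
          have h5 := hh_le hη e1 h4
          rw [h3] at h5
          calc ‖hh η (w - v1)‖ * ‖hh η (v2 - w)‖ ≤ ‖hh η (w - v1)‖ * 1 :=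
                mul_le_mul_of_nonneg_left l2 (norm_nonneg _)
            _ ≤ _ := by rw [mul_one]; exact h5
      calc ‖ψ w‖ * ‖hh η (w - v1)‖ * ‖hh η (v2 - w)‖
          = ‖ψ w‖ * (‖hh η (w - v1)‖ * ‖hh η (v2 - w)‖) := by ring
        _ ≤ (A * Real.exp (η / |w.im|)) * Real.exp (-(η / |w.im|)) := by
            refine mul_le_mul h1 hkey (by positivity) (by positivity)
        _ = A := by
            rw [mul_assoc, ← Real.exp_add, add_neg_cancel, Real.exp_zero, mul_one]
  intro z hz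
  have hz2 : |z.re - x0| + |z.im| < 3 / 2 := by
    have h1 : |(z - (x0 : ℂ)).re| ≤ ‖z - (x0 : ℂ)‖ := Complex.abs_re_le_norm _
    have h2 : |(z - (x0 : ℂ)).im| ≤ ‖z - (x0 : ℂ)‖ := Complex.abs_im_le_norm _
    rw [sub_re, ofReal_re] at h1
    rw [sub_im, ofReal_im, sub_zero] at h2
    linarith
  have hg1 : ‖g z‖ ≤ A := Complex.norm_le_of_forall_mem_frontier_norm_le hbdd hgd hfr
    (subset_closure hz2)
  have hgn : ‖g z‖ = ‖ψ z‖ * ‖hh η (z - v1)‖ * ‖hh η (v2 - z)‖ := by
    rw [hg]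
    simp only [norm_mul]
  have n1 : 1 ≤ ‖z - v1‖ := by
    have h1 : ‖(x0 : ℂ) - v1‖ = 3 / 2 := by
      rw [hv1, ← ofReal_sub, Complex.norm_real]
      norm_num
    have h2 : ‖(x0 : ℂ) - v1‖ ≤ ‖z - v1‖ + ‖z - (x0 : ℂ)‖ := by
      calc ‖(x0 : ℂ) - v1‖ = ‖(z - v1) - (z - (x0 : ℂ))‖ := by congr 1; ring
        _ ≤ _ := norm_sub_le _ _
    linarith
  have n2 : 1 ≤ ‖v2 - z‖ := by
    have h1 : ‖v2 - (x0 : ℂ)‖ = 3 / 2 := by
      rw [hv2, ← ofReal_sub, Complex.norm_real]
      norm_num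
    have h2 : ‖v2 - (x0 : ℂ)‖ ≤ ‖v2 - z‖ + ‖z - (x0 : ℂ)‖ := by
      calc ‖v2 - (x0 : ℂ)‖ = ‖(v2 - z) + (z - (x0 : ℂ))‖ := by congr 1; ring
        _ ≤ _ := norm_add_le _ _
    linarith
  have m1 := hh_ge hη n1
  have m2 := hh_ge hη n2
  have hq : Real.exp (-(2 * η)) * Real.exp (-(2 * η)) ≤ ‖hh η (z - v1)‖ * ‖hh η (v2 - z)‖ :=
    mul_le_mul m1 m2 (Real.exp_pos _).le (norm_nonneg _)
  have he : Real.exp (-(2 * η)) * Real.exp (-(2 * η)) = Real.exp (-(4 * η)) := by
    rw [← Real.exp_add]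
    congr 1
    ring
  rw [he] at hq
  have hfin : ‖ψ z‖ * Real.exp (-(4 * η)) ≤ A := by
    calc ‖ψ z‖ * Real.exp (-(4 * η)) ≤ ‖ψ z‖ * (‖hh η (z - v1)‖ * ‖hh η (v2 - z)‖) :=
          mul_le_mul_of_nonneg_left hq (norm_nonneg _)
      _ = ‖g z‖ := by rw [hgn]; ring
      _ ≤ A := hg1
  calc ‖ψ z‖ = ‖ψ z‖ * Real.exp (-(4 * η)) * Real.exp (4 * η) := by
        rw [mul_assoc, ← Real.exp_add, neg_add_cancel, Real.exp_zero, mul_one]
    _ ≤ A * Real.exp (4 * η) := mul_le_mul_of_nonneg_right hfin (Real.exp_pos _).le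

end

end Pool.Agent.WK6.H73
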